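import Pool.Agent.Helper45.PQ.StB

set_option autoImplicit false

open Module Classical
open scoped LinearAlgebra.Projectivization

namespace Pool.Agent.Helper42.PQ

open Pool.Agent.Helper45.PQ
open Pool.Agent.Helper53.PB (tt line)

universe u v

private lemma perp_line {F : Type u} {V : Type v} [Field F] [AddCommGroup V] [Module F V]
    (Q : QuadraticForm F V) {P R X : ℙ F V} {a : V} (hX : X.rep ∈ line P R)
    (h1 : QuadraticMap.polar Q a P.rep = 0) (h2 : QuadraticMap.polar Q a R.rep = 0) :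
    QuadraticMap.polar Q a X.rep = 0 := by
  obtain ⟨c, d, hcd⟩ := Pool.Agent.Helper53.PB.mem_line.1 hX
  rw [← hcd, QuadraticMap.polar_add_right, QuadraticMap.polar_smul_right,
    QuadraticMap.polar_smul_right, h1, h2, smul_zero, smul_zero, add_zero]

private lemma line_comm {F : Type u} {V : Type v} [Field F] [AddCommGroup V] [Module F V]
    (P R : ℙ F V) : line P R = line R P := by
  unfold line
  exact sup_comm _ _

theorem hONA (h1 : StDGT.{u, v}) (h2 : StRKA.{u, v}) : StONA.{u, v} := by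
  intro F _ _ V _ _ _ _ Q T H m h j c R hH
  obtain ⟨-, hd2, -⟩ := h1 F V Q T H m h j c
  obtain ⟨hr1, -⟩ := h2 F V Q h c.hq c.h1
  have hRH : R ∈ H := by rw [hH]; exact Finset.mem_singleton_self R
  have hmR : m R = j := by
    have := c.ms
    rw [hH, Finset.sum_singleton] at this
    exact this
  have hRT : R ∉ T := c.dis R hRH
  have hQR : Q R.rep = 0 := c.sH R hRH
  have hRR : QuadraticMap.polar Q R.rep R.rep = 0 := by
    rw [polar_self_two, hQR, mul_zero]
  obtain ⟨q, hq⟩ : ∃ q, q = Nat.card F := ⟨_, rfl⟩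
  obtain ⟨Z, hZ⟩ : ∃ Z, Z = T.filter (fun P => ¬ QuadraticMap.polar Q R.rep P.rep = 0) := ⟨_, rfl⟩
  obtain ⟨T0, hT0⟩ : ∃ T0, T0 = T.filter (fun P => QuadraticMap.polar Q R.rep P.rep = 0) := ⟨_, rfl⟩
  have hnu : nu Q T R.rep = T0.card := by rw [hT0]; rfl
  have hsum : T0.card + Z.card = T.card := by
    rw [hT0, hZ]
    exact Finset.card_filter_add_card_filter_not _
  have hlo := c.lo R hRH
  have hup := c.up R hRH
  rw [hnu, hmR, ← hq] at hlo hup
  have hcT := c.cT
  rw [← hq] at hcT
  have hj := c.hj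
  rw [← hq] at hj
  -- the classes
  have hfib : ∀ x ∈ T0, (T0.filter (fun x' => line x' R = line x R)).card = 1 + j := by
    intro x hx
    rw [hT0, Finset.mem_filter] at hx
    obtain ⟨hxT, hxR⟩ := hx
    have hxne : R ≠ x := fun he => hRT (he ▸ hxT)
    have e1 : T0.filter (fun x' => line x' R = line x R) =
        T.filter (fun x' => x'.rep ∈ line x R) := by
      ext x'
      rw [hT0, Finset.mem_filter, Finset.mem_filter, Finset.mem_filter]
      constructor
      · rintro ⟨⟨h3, h4⟩, h5⟩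
        refine ⟨h3, ?_⟩
        rw [← h5]
        exact Pool.Agent.Helper53.PB.left_mem_line _ _
      · rintro ⟨h3, h4⟩
        have hx'ne : x' ≠ R := fun he => hRT (he ▸ h3)
        refine ⟨⟨h3, perp_line Q h4 hxR hRR⟩, ?_⟩
        rw [line_comm x' R, line_comm x R]
        rw [line_comm x R] at h4
        exact Pool.Agent.Helper53.PB.line_eq hxne h4 hx'ne
    have e2 := c.ln x hxT R hxne hQR (by rw [QuadraticMap.polar_comm]; exact hxR)
    have e3 : mass H m (line x R) = j := by
      unfold mass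
      rw [hH, Finset.filter_singleton, if_pos (Pool.Agent.Helper53.PB.right_mem_line _ _),
        Finset.sum_singleton, hmR]
    rw [e1]
    rw [e3] at e2
    exact e2
  have himg : T0.card = (T0.image (fun x => line x R)).card * (1 + j) := by
    rw [Finset.card_eq_sum_card_image (fun x => line x R) T0]
    refine Finset.sum_const_nat ?_
    intro l hl
    obtain ⟨x, hx, rfl⟩ := Finset.mem_image.1 hl
    exact hfib x hx
  have hB1 : q ^ 3 + 1 ≤ (T0.image (fun x => line x R)).card := by
    rw [himg, mul_comm] at hlo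
    exact Nat.le_of_mul_le_mul_right hlo (by omega)
  obtain ⟨s', hs', hbij⟩ := Set.exists_subset_bijOn (T0 : Set (ℙ F V)) (fun x => line x R)
  have hfin : s'.Finite := T0.finite_toSet.subset hs'
  obtain ⟨B, hB⟩ : ∃ B, B = hfin.toFinset := ⟨_, rfl⟩
  have hBs : ∀ x, x ∈ B ↔ x ∈ s' := by
    intro x
    rw [hB, Set.Finite.mem_toFinset]
  have hBT : ∀ x ∈ B, x ∈ T0 := fun x hx => hs' ((hBs x).1 hx)
  have hBinj : Set.InjOn (fun x => line x R) (B : Set (ℙ F V)) := by
    intro x hx y hy
    exact hbij.injOn ((hBs x).1 hx) ((hBs y).1 hy)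
  have hBcard : B.card = (T0.image (fun x => line x R)).card := by
    rw [← Finset.card_image_of_injOn hBinj]
    congr 1
    ext l
    rw [Finset.mem_image, Finset.mem_image]
    constructor
    · rintro ⟨x, hx, rfl⟩
      exact ⟨x, hBT x hx, rfl⟩
    · rintro ⟨x, hx, rfl⟩
      obtain ⟨y, hy, hyx⟩ := hbij.surjOn (Set.mem_image_of_mem (fun x => line x R) (Finset.mem_coe.2 hx))
      exact ⟨y, (hBs y).2 hy, hyx⟩
  -- independence
  have hZT : ∀ P ∈ Z, P ∈ T ∧ QuadraticMap.polar Q R.rep P.rep ≠ 0 := by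
    intro P hP
    rw [hZ, Finset.mem_filter] at hP
    exact hP
  have hT0T : ∀ P ∈ T0, P ∈ T ∧ QuadraticMap.polar Q R.rep P.rep = 0 := by
    intro P hP
    rw [hT0, Finset.mem_filter] at hP
    exact hP
  have hZind : ∀ P ∈ Z, ∀ X ∈ T, X ≠ P → QuadraticMap.polar Q P.rep X.rep ≠ 0 := by
    intro P hP X hX hXP h0
    obtain ⟨hPT, hPR⟩ := hZT P hP
    have e1 := hd2 P hPT
    have e2 : H.filter (fun R' => QuadraticMap.polar Q P.rep R'.rep = 0) = ∅ := by
      rw [hH, Finset.filter_singleton, if_neg]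
      rw [QuadraticMap.polar_comm]
      exact hPR
    rw [e2, Finset.sum_empty, Nat.le_zero, Finset.card_eq_zero] at e1
    have e3 : X ∈ T.filter (fun X => X ≠ P ∧ QuadraticMap.polar Q P.rep X.rep = 0) :=
      Finset.mem_filter.2 ⟨hX, hXP, h0⟩
    rw [e1] at e3
    exact absurd e3 (Finset.notMem_empty _)
  have hBind : ∀ P ∈ B, ∀ X ∈ B, P ≠ X → QuadraticMap.polar Q P.rep X.rep ≠ 0 := by
    intro P hP X hX hPX h0
    obtain ⟨hPT, hPR⟩ := hT0T P (hBT P hP)
    obtain ⟨hXT, hXR⟩ := hT0T X (hBT X hX)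
    have hRP : R ≠ P := fun he => hRT (he ▸ hPT)
    have hRX : R ≠ X := fun he => hRT (he ▸ hXT)
    have e1 := c.ln P hPT X (Ne.symm hPX) (c.sT X hXT) h0
    have e2 : 2 ≤ tt T (line P X) := by
      unfold tt
      have e3 : ({P, X} : Finset (ℙ F V)) ⊆ T.filter (fun y => y.rep ∈ line P X) := by
        intro y hy
        rw [Finset.mem_insert, Finset.mem_singleton] at hy
        rcases hy with rfl | rfl
        · exact Finset.mem_filter.2 ⟨hPT, Pool.Agent.Helper53.PB.left_mem_line _ _⟩
        · exact Finset.mem_filter.2 ⟨hXT, Pool.Agent.Helper53.PB.right_mem_line _ _⟩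
      have e4 := Finset.card_le_card e3
      rwa [Finset.card_pair hPX] at e4
    have e5 : R.rep ∈ line P X := by
      by_contra hcon
      have e6 : mass H m (line P X) = 0 := by
        unfold mass
        rw [hH, Finset.filter_singleton, if_neg hcon, Finset.sum_empty]
      omega
    apply hPX
    refine hBinj hP hX ?_
    show line P R = line X R
    rw [Pool.Agent.Helper53.PB.line_eq hPX e5 hRP, line_comm X R]
    rw [line_comm P X] at e5
    rw [line_comm R X, Pool.Agent.Helper53.PB.line_eq (Ne.symm hPX) e5 hRX, line_comm P X]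
  have hne : ∃ x, Q x ≠ 0 := by
    by_contra hcon
    push Not at hcon
    have e1 := c.qd.mx ⊤ (fun x _ => hcon x)
    rw [finrank_top, c.qd.hd] at e1
    omega
  have hdisj : Disjoint Z B := by
    rw [Finset.disjoint_left]
    intro P hP hP2
    exact (hZT P hP).2 (hT0T P (hBT P hP2)).2
  have hIT : ∀ P ∈ Z ∪ B, P ∈ T := by
    intro P hP
    rcases Finset.mem_union.1 hP with hP | hP
    · exact (hZT P hP).1
    · exact (hT0T P (hBT P hP)).1
  have hfinal := hr1 c.qd.hd hne (Z ∪ B) (fun P hP => c.sT P (hIT P hP)) (by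
    intro P hP X hX hPX
    rcases Finset.mem_union.1 hP with hP' | hP'
    · exact hZind P hP' X (hIT X hX) (Ne.symm hPX)
    · rcases Finset.mem_union.1 hX with hX' | hX'
      · rw [QuadraticMap.polar_comm]
        exact hZind X hX' P (hIT P hP) hPX
      · exact hBind P hP' X hX' hPX)
  rw [Finset.card_union_of_disjoint hdisj] at hfinal
  rw [← hq]
  obtain ⟨d, hd⟩ : ∃ d, q = d + j := ⟨q - j, by omega⟩
  obtain ⟨k, hk⟩ : ∃ k, k = q ^ 3 := ⟨_, rfl⟩
  have hq4 : q ^ 4 = d * k + j * k := by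
    rw [hk, ← add_mul, ← hd]
    ring
  rw [hq4] at hcT
  rw [← hk] at hup hB1
  rw [← hk, hd, Nat.add_sub_cancel]
  have e1 : (1 + j) * k = k + j * k := by ring
  rw [e1] at hup
  omega

end Pool.Agent.Helper42.PQ
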